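import Pool.Agent.J6H76.EW.Every
import Pool.Agent.Y124.TH.Ca
import Pool.Agent.Y124.TD.Ap2

/-!
# All tuples of a window: arbitrary points of the groups generated by all elliptic logarithms, up to the periods
-/

set_option autoImplicit false

open Module PowerSeries

namespace Pool.Agent.J6H76.EW

open Pool.Agent.Y113 Pool.Agent.Y916 Pool.Agent.Y916.AW Pool.Agent.Y916.Al Pool.Agent.Y916.Hy Pool.Agent.Y916.Sa
open Pool.Agent.Y916.Sl Pool.Agent.Y916.Sch Pool.Agent.R351.GD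
open Pool.Agent.Y124.TD Pool.Agent.Y124.TG Pool.Agent.Y124.TH
open scoped PeriodPair

/-- a larger field -/
lemma LIb.mono {K K' : IntermediateField ℚ ℂ} (h : K ≤ K') {δ e : ℕ} {z : Fin e → ℂ} (hz : LIb K' δ z) : LIb K δ z := by
  classical
  rw [LIb, Fintype.linearIndependent_iff] at hz ⊢
  intro c hc i
  have h1 := hz (fun s => ⟨c s, h (c s).2⟩) (by
    rw [← hc]
    refine Finset.sum_congr rfl fun s _ => ?_
    rw [Algebra.smul_def, Algebra.smul_def]
    rfl) i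
  exact Subtype.ext (congrArg (fun x : K' => (x : ℂ)) h1)

/-- independent linear forms at numbers without relations -/
lemma box_of_free {ι κ : Type} [Fintype ι] [Fintype κ] [DecidableEq ι] {K : IntermediateField ℚ ℂ} {N : ℕ} (y : κ → ℂ)
    (hfree : ∀ Q : MvPolynomial κ K, Q.totalDegree ≤ Fintype.card ι * N → MvPolynomial.aeval y Q = 0 → Q = 0)
    (B : ι → κ → ℤ) (hB : ∀ v : ι → ℂ, ∃ u : κ → ℂ, ∀ i, ∑ k, (B i k : ℂ) * u k = v i) (x : ι → ℂ)
    (hx : ∀ i, x i = ∑ k, (B i k : ℂ) * y k) :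
    LinearIndependent ℚ (fun s : ι → Fin (N + 1) => ∏ i, x i ^ (s i : ℕ)) := by
  classical
  rw [Fintype.linearIndependent_iff]
  intro c hc
  let S : ι → MvPolynomial κ K := fun i => ∑ k, MvPolynomial.C ((B i k : ℤ) : K) * MvPolynomial.X k
  have hS : ∀ i, (S i).totalDegree ≤ 1 := fun i =>
    MvPolynomial.totalDegree_finsetSum_le fun k _ => by
      refine (MvPolynomial.totalDegree_mul _ _).trans ?_
      rw [MvPolynomial.totalDegree_C, zero_add, MvPolynomial.totalDegree_X]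
  have hSe : ∀ (u : κ → ℂ) (i : ι), MvPolynomial.aeval u (S i) = ∑ k, (B i k : ℂ) * u k := by
    intro u i
    show MvPolynomial.aeval u (∑ k, MvPolynomial.C ((B i k : ℤ) : K) * MvPolynomial.X k) = _
    have hint : ∀ (c : ℤ), algebraMap K ℂ ((c : ℤ) : K) = (c : ℂ) := fun c => by simp
    simp only [map_sum, map_mul, MvPolynomial.aeval_C, hint, MvPolynomial.aeval_X]
  set Q : MvPolynomial κ K := ∑ s : ι → Fin (N + 1), MvPolynomial.C (algebraMap ℚ K (c s)) * ∏ i, S i ^ (s i : ℕ) with hQ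
  have hQe : ∀ u : κ → ℂ, MvPolynomial.aeval u Q = ∑ s : ι → Fin (N + 1), (c s : ℂ) * ∏ i, (∑ k, (B i k : ℂ) * u k) ^ (s i : ℕ) := by
    intro u
    rw [hQ, map_sum]
    refine Finset.sum_congr rfl fun s _ => ?_
    have e1 : algebraMap K ℂ (algebraMap ℚ K (c s)) = (c s : ℂ) := by simp
    rw [map_mul, map_prod, MvPolynomial.aeval_C, e1]
    congr 1
    refine Finset.prod_congr rfl fun i _ => ?_
    rw [map_pow, hSe]
  have hQd : Q.totalDegree ≤ Fintype.card ι * N := by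
    refine MvPolynomial.totalDegree_finsetSum_le fun s _ => ?_
    refine (MvPolynomial.totalDegree_mul _ _).trans ?_
    rw [MvPolynomial.totalDegree_C, zero_add]
    refine (MvPolynomial.totalDegree_finset_prod _ _).trans ?_
    calc ∑ i, (S i ^ (s i : ℕ)).totalDegree ≤ ∑ _i : ι, N := by
          refine Finset.sum_le_sum fun i _ => ?_
          refine (MvPolynomial.totalDegree_pow _ _).trans ?_
          calc (s i : ℕ) * (S i).totalDegree ≤ N * 1 := Nat.mul_le_mul (Nat.lt_succ_iff.1 (s i).2) (hS i)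
            _ = N := mul_one N
      _ = _ := by rw [Finset.sum_const, Finset.card_univ, smul_eq_mul]
  have hQ0 : Q = 0 := by
    refine hfree Q hQd ?_
    rw [hQe, ← hc]
    refine Finset.sum_congr rfl fun s _ => ?_
    rw [Rat.smul_def]
    congr 1
    refine Finset.prod_congr rfl fun i _ => ?_
    rw [hx i]
  -- the coefficients
  let f : (ι → Fin (N + 1)) → (ι →₀ ℕ) := fun s => Finsupp.equivFunOnFinite.symm fun i => (s i : ℕ)
  have hf : Function.Injective f := by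
    intro s s' hss
    funext i
    exact Fin.ext (DFunLike.congr_fun hss i)
  set R : MvPolynomial ι ℂ := ∑ s : ι → Fin (N + 1), MvPolynomial.monomial (f s) ((c s : ℚ) : ℂ) with hR
  have hR0 : R = 0 := by
    refine MvPolynomial.funext fun v => ?_
    obtain ⟨u, hu⟩ := hB v
    rw [map_zero, hR, map_sum]
    have h1 := hQe u
    rw [hQ0, map_zero] at h1
    rw [h1]
    refine Finset.sum_congr rfl fun s _ => ?_
    rw [MvPolynomial.eval_monomial]
    congr 1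
    rw [Finsupp.prod_fintype _ _ fun i => pow_zero _]
    refine Finset.prod_congr rfl fun i _ => ?_
    rw [hu i]
    rfl
  intro s
  have h2 := congrArg (MvPolynomial.coeff (f s)) hR0
  rw [hR, MvPolynomial.coeff_sum, MvPolynomial.coeff_zero, Finset.sum_eq_single s] at h2
  · rw [MvPolynomial.coeff_monomial, if_pos rfl] at h2
    exact_mod_cast h2
  · intro s' _ hne
    rw [MvPolynomial.coeff_monomial, if_neg fun h => hne (hf h)]
  · intro h
    exact absurd (Finset.mem_univ _) h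

/-- the four periods and quasi-periods -/
noncomputable def u4 (Λ : PeriodPair) : Fin 4 → ℂ :=
  ![Λ.ω₁, Λ.ω₂, H667R3.zeta Λ (Λ.ω₁ / 2), H667R3.zeta Λ (Λ.ω₂ / 2)]

/-- **All tuples of a window, all points of all the groups** -/
theorem any (Λ : PeriodPair) (a b : ℚ) (ha : Λ.g₂ = a) (hb : Λ.g₃ = b) {s₀ : ℕ} (θ : Fin s₀ → ℂ)
    (hθ : ∀ i, IsAlgebraic (Algebra.adjoin ℚ (Set.range θ)) (u4 Λ i)) (r m A n δ D : ℕ) :
    ∃ E : ℕ, ∀ (H : ℕ) (ξ : ℂ), ((H : ℝ) + 2) ^ E ≤ ‖ξ‖ → Ht m A ξ →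
      ∀ g : Fin r → ℕ, Function.Injective g → (∀ i, 1 ≤ g i ∧ g i ≤ H) →
      ∀ l : Fin r → ℂ, (∀ i, l i ∉ Λ.lattice ∧ ℘[Λ] (l i) = ξ + g i) →
      ∀ (p : Fin n → ℂ) (B : Fin n → Fin r → ℤ), (∀ j, p j - ∑ i, (B j i : ℂ) * l i ∈ Λ.lattice) →
        (∀ c : Fin n → ℤ, ∑ j, (c j : ℂ) * p j ∈ Λ.lattice → c = 0) →
      ∀ K : IntermediateField ℚ ℂ, FiniteDimensional ℚ K → finrank ℚ K ≤ D →
        ∃ σ : Fin (2 * n - s₀) → Fin n × Fin 2, Function.Injective σ ∧ LIb K δ (fun i => XG Λ p (σ i)) := by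
  classical
  have hF := good_of_invariants Λ a b ha hb
  have hdeg : (Fe a b).natDegree - 1 = 2 := by rw [Fe_deg]
  set i₀ : Fin ((Fe a b).natDegree - 1) := ⟨0, by omega⟩ with hi₀
  set i₁ : Fin ((Fe a b).natDegree - 1) := ⟨1, by omega⟩ with hi₁
  obtain ⟨E₁, hE₁⟩ := tW Λ a b ha hb hF i₀ i₁ rfl rfl
  obtain ⟨E₂, -, hE₂⟩ := free_gen a b hF i₀ i₁ rfl rfl r m A
  choose av mv lv κv hl0 hrel hmem using fun i : Fin 4 => alg_rel θ (hθ i)
  choose Ψ hΨ using fun c e : ℕ => gr_algs2 c (e + s₀) (Finset.univ.sup av) (Finset.univ.sup fun p => mv p + 1) 4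
  set D' : ℕ := D * (6 * (m + 1)) ^ (3 + 2 * Fintype.card (Fin r)) with hD'
  obtain ⟨N, hN⟩ := core_abs (2 * n) δ D' s₀ 1 (2 * n) Ψ
  refine ⟨E₁ + E₂ (D' + 2 * n * N) + 1, fun H ξ hξ hHt g hg hgb l hl p B hpB hind K hK hKd => ?_⟩
  have hH : (1 : ℝ) ≤ (H : ℝ) + 2 := by linarith [(Nat.cast_nonneg H : (0 : ℝ) ≤ H)]
  have hbig : ∀ {E : ℕ}, E ≤ E₁ + E₂ (D' + 2 * n * N) + 1 → ((H : ℝ) + 2) ^ E ≤ ‖ξ‖ := fun {E} hE =>
    (pow_le_pow_right₀ hH hE).trans hξ
  have hξ2 : (2 : ℝ) ≤ ‖ξ‖ := by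
    refine le_trans ?_ (hbig (E := 1) (by omega))
    rw [pow_one]
    linarith [(Nat.cast_nonneg H : (0 : ℝ) ≤ H)]
  have hξn : 0 < ‖ξ‖ := by linarith
  have hξ0 : ξ ≠ 0 := norm_pos_iff.1 hξn
  obtain ⟨s, hs⟩ := IsAlgClosed.exists_pow_nat_eq (1 / ξ) (show 0 < 2 by norm_num)
  have hs0 : s ≠ 0 := by
    rintro rfl
    rw [zero_pow two_ne_zero] at hs
    exact one_div_ne_zero hξ0 hs.symm
  have hα : ∀ i, 1 / s ^ 2 + (g i : ℂ) = ξ + g i := fun i => by rw [hs, one_div_one_div]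
  -- the logarithms of the power series
  let l₀ : Fin r → ℂ := fun i => s * evc (s ^ 2) (Yf (Fe a b) (g i) (Sum.inl i₀)) / 2
  have hl₀ : ∀ i, l₀ i ∉ Λ.lattice ∧ ℘[Λ] (l₀ i) = ξ + g i ∧
      H667R3.zeta Λ (l₀ i) = -evc (s ^ 2) (Yf (Fe a b) (g i) (Sum.inl i₁)) / (2 * s) := by
    intro i
    have h1 := hE₁ (g i) s hs0 (by
      rw [← norm_pow, hs, norm_div, norm_one, div_mul_eq_mul_div, one_mul, div_le_one hξn]
      refine le_trans ?_ (hbig (E := E₁) (by omega))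
      have h5 : (g i : ℝ) ≤ H := by exact_mod_cast (hgb i).2
      exact pow_le_pow_left₀ (by positivity) (by linarith) _)
    rw [hα i] at h1
    exact h1
  have hcmp : ∀ i, ∃ ε : ℤ, l i - ε * l₀ i ∈ Λ.lattice := by
    intro i
    obtain ⟨ε, m₁, m₂, -, q1, -⟩ := qp' Λ (hl₀ i).1 (hl i).1 (by rw [(hl i).2, (hl₀ i).2.1])
    refine ⟨ε, ?_⟩
    have h1 : l i - ε * l₀ i = m₁ * Λ.ω₁ + m₂ * Λ.ω₂ := by linear_combination q1
    rw [h1]
    exact PeriodPair.mem_lattice.2 ⟨m₁, m₂, rfl⟩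
  choose ε hε using hcmp
  let B' : Fin n → Fin r → ℤ := fun j i => B j i * ε i
  have hpB' : ∀ j, p j - ∑ i, (B' j i : ℂ) * l₀ i ∈ Λ.lattice := by
    intro j
    have h1 : p j - ∑ i, (B' j i : ℂ) * l₀ i = (p j - ∑ i, (B j i : ℂ) * l i) + ∑ i, (B j i : ℂ) * (l i - ε i * l₀ i) := by
      simp only [mul_sub, Finset.sum_sub_distrib]
      have h2 : ∀ i, (B' j i : ℂ) * l₀ i = (B j i : ℂ) * (ε i * l₀ i) := fun i => by
        show ((B j i * ε i : ℤ) : ℂ) * l₀ i = _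
        push_cast
        ring
      rw [Finset.sum_congr rfl fun i _ => h2 i]
      ring
    rw [h1]
    refine add_mem (hpB j) (sum_mem fun i _ => ?_)
    have h2 : (B j i : ℂ) * (l i - ε i * l₀ i) = B j i • (l i - ε i * l₀ i) := by simp
    rw [h2]
    exact zsmul_mem (hε i) _
  have hp : ∀ j, p j ∉ Λ.lattice := by
    intro j hj
    have h1 := hind (Pi.single j 1) (by
      rw [Finset.sum_eq_single j]
      · simpa using hj
      · intro i _ hi
        simp [hi]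
      · intro h
        exact absurd (Finset.mem_univ _) h)
    have h2 := congrFun h1 j
    simp at h2
  have hrows : ∀ c : Fin n → ℤ, (∀ i, ∑ j, c j * B' j i = 0) → c = 0 := by
    intro c hc
    refine hind c ?_
    have h1 : ∑ j, (c j : ℂ) * p j = ∑ j, (c j : ℂ) * (p j - ∑ i, (B' j i : ℂ) * l₀ i) := by
      have h2 : ∑ j, (c j : ℂ) * ∑ i, (B' j i : ℂ) * l₀ i = 0 := by
        simp only [Finset.mul_sum]
        rw [Finset.sum_comm]
        refine Finset.sum_eq_zero fun i _ => ?_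
        have h3 : ((∑ j, c j * B' j i : ℤ) : ℂ) = 0 := by rw [hc i]; simp
        push_cast at h3
        have h4 : ∑ j, (c j : ℂ) * ((B' j i : ℂ) * l₀ i) = (∑ j, (c j : ℂ) * (B' j i : ℂ)) * l₀ i := by
          rw [Finset.sum_mul]
          exact Finset.sum_congr rfl fun j _ => by ring
        rw [h4, h3, zero_mul]
      simp only [mul_sub, Finset.sum_sub_distrib, h2, sub_zero]
    rw [h1]
    refine sum_mem fun j _ => ?_
    have h2 : (c j : ℂ) * (p j - ∑ i, (B' j i : ℂ) * l₀ i) = c j • (p j - ∑ i, (B' j i : ℂ) * l₀ i) := by simp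
    rw [h2]
    exact zsmul_mem (hpB' j) _
  -- the field
  obtain ⟨pξ, hp0, hpd, hpY, hpz⟩ := hHt
  obtain ⟨K₁, ξ', k1, k2, k3, -⟩ := pt_root hp0 hpd hpY hpz
  obtain ⟨K', hKK', hK', hK'd, hlK, hgK, hh⟩ := coord_field Λ a b ha hb (m := m + 1) (by omega) (fun i => ξ + g i)
    (fun i => ⟨K₁, k1, k2.trans (Nat.le_succ m), by
      rw [← k3]
      exact add_mem ξ'.2 (natCast_mem _ _)⟩) l₀ (fun i => (hl₀ i).1) (fun i => (hl₀ i).2.1) K hK
  have hK'D : finrank ℚ K' ≤ D' := hK'd.trans (Nat.mul_le_mul hKd le_rfl)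
  have hgrp := fun j => grp_mem Λ K' hgK hh l₀ (fun i => (hl₀ i).1) hlK (B' j) (p j) (hp j) (hpB' j)
  choose hp1 hp2 m₁ m₂ κ hκ hpe hze using hgrp
  -- the independent numbers
  let y : Fin r × Fin 2 → ℂ := fun x => (![l₀ x.1, H667R3.zeta Λ (l₀ x.1)] : Fin 2 → ℂ) x.2
  let x : Fin n × Fin 2 → ℂ := fun c => ∑ i, (B' c.1 i : ℂ) * y (i, c.2)
  have hLI : LinearIndependent ℚ (fun t : Fin n × Fin 2 → Fin (N + 1) => ∏ i, x i ^ (t i : ℕ)) := by
    let BB : Fin n × Fin 2 → Fin r × Fin 2 → ℤ := fun c d => if d.2 = c.2 then B' c.1 d.1 else 0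
    have hBB : ∀ (c : Fin n × Fin 2) (u : Fin r × Fin 2 → ℂ), ∑ d, (BB c d : ℂ) * u d = ∑ i, (B' c.1 i : ℂ) * u (i, c.2) := by
      intro c u
      rw [Fintype.sum_prod_type]
      refine Finset.sum_congr rfl fun i _ => ?_
      rw [Finset.sum_eq_single c.2]
      · show ((if c.2 = c.2 then B' c.1 i else 0 : ℤ) : ℂ) * _ = _
        rw [if_pos rfl]
      · intro d _ hd
        show ((if d = c.2 then B' c.1 i else 0 : ℤ) : ℂ) * _ = _
        rw [if_neg hd]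
        simp
      · intro h
        exact absurd (Finset.mem_univ _) h
    refine box_of_free (K := K') y (fun Q hQ hQ0 => ?_) BB (fun v => ?_) x (fun c => (hBB c y).symm)
    · refine hE₂ (D' + 2 * n * N) H ξ (hbig (by omega)) ⟨pξ, hp0, hpd, hpY, hpz⟩ g hg hgb s hs l₀
        (fun i => H667R3.zeta Λ (l₀ i)) (fun i => ⟨1, Or.inl rfl, by
          rw [Int.cast_one, one_mul], by
          rw [Int.cast_one, one_mul]
          exact (hl₀ i).2.2⟩) K' hK' (hK'D.trans (Nat.le_add_right _ _)) Q (hQ.trans ?_) hQ0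
      rw [Fintype.card_prod, Fintype.card_fin, Fintype.card_fin]
      calc n * 2 * N = 2 * n * N := by ring
        _ ≤ _ := Nat.le_add_left _ _
    · obtain ⟨u₁, hu₁⟩ := right_inv B' hrows fun j => v (j, 0)
      obtain ⟨u₂, hu₂⟩ := right_inv B' hrows fun j => v (j, 1)
      refine ⟨fun x => (![u₁ x.1, u₂ x.1] : Fin 2 → ℂ) x.2, fun c => ?_⟩
      rw [hBB]
      obtain ⟨j, c⟩ := c
      fin_cases c
      · exact hu₁ j
      · exact hu₂ j
  -- the core
  have hcore : ∀ (c e : ℕ) (W₁ : Submodule K' ℂ), (1 : ℂ) ∈ W₁ → (∀ x, XG Λ p x ∈ W₁) → GR c e W₁ →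
      ∃ (W₂ : Submodule K' ℂ) (q : ℂ), (1 : ℂ) ∈ W₂ ∧ GR (Ψ c e) (e + s₀) W₂ ∧ q ≠ 0 ∧ q ∈ W₂ ^ 1 ∧
        ∀ i, q * x i ∈ W₂ ^ 1 := by
    intro c e W₁ h1 hzW hG
    obtain ⟨V₁, hV₁, hθV, hG₁⟩ := gr_fam c s₀ e W₁ h1 hG θ
    have h10 : (1 : ℂ) ∈ V₁ := hV₁ h1
    obtain ⟨V', hV', huV, hG'⟩ := hΨ c e K' V₁ h10 hG₁ (Fin 4) (Fintype.card_fin 4) (u4 Λ) (fun i => by
      obtain ⟨h2, h3⟩ := hmem i K' V₁ h10 hθV
      have hle : av i ≤ Finset.univ.sup av := Finset.le_sup (Finset.mem_univ i)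
      exact ⟨mv i, lv i, κv i, Finset.le_sup (f := fun p => mv p + 1) (Finset.mem_univ i), hl0 i, pow_mem_mono h10 hle h2,
        fun j => pow_mem_mono h10 hle (h3 j), hrel i⟩)
    have h11 : (1 : ℂ) ∈ V' := hV' h10
    have hint : ∀ (t : ℤ) {v : ℂ}, v ∈ V' → (t : ℂ) * v ∈ V' := by
      intro t v hv
      have h2 : (t : ℂ) * v = (t : K') • v := by
        rw [Algebra.smul_def]
        simp
      rw [h2]
      exact Submodule.smul_mem _ _ hv
    have hKV : ∀ {v : ℂ}, v ∈ K' → v ∈ V' := by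
      intro v hv
      have h2 : v = (⟨v, hv⟩ : K') • (1 : ℂ) := by
        rw [Algebra.smul_def, mul_one]
        rfl
      rw [h2]
      exact Submodule.smul_mem _ _ h11
    refine ⟨V', 1, h11, hG', one_ne_zero, by rw [pow_one]; exact h11, fun c => ?_⟩
    rw [one_mul, pow_one]
    obtain ⟨j, c⟩ := c
    fin_cases c
    · have h2 : x (j, 0) = p j - ((m₁ j : ℂ) * Λ.ω₁ + m₂ j * Λ.ω₂) := by
        rw [hpe j]
        show ∑ i, (B' j i : ℂ) * l₀ i = _
        ring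
      show x (j, 0) ∈ V'
      rw [h2]
      exact sub_mem (hV' (hV₁ (hzW (j, 0)))) (add_mem (hint _ (huV 0)) (hint _ (huV 1)))
    · have h2 : x (j, 1) = H667R3.zeta Λ (p j) - (((2 * m₁ j : ℤ) : ℂ) * H667R3.zeta Λ (Λ.ω₁ / 2) +
          ((2 * m₂ j : ℤ) : ℂ) * H667R3.zeta Λ (Λ.ω₂ / 2)) - κ j := by
        rw [hze j]
        show ∑ i, (B' j i : ℂ) * H667R3.zeta Λ (l₀ i) = _
        push_cast
        ring
      show x (j, 1) ∈ V'
      rw [h2]
      exact sub_mem (sub_mem (hV' (hV₁ (hzW (j, 1)))) (add_mem (hint _ (huV 2)) (hint _ (huV 3)))) (hKV (hκ j))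
  obtain ⟨σ, hσ, hσ2⟩ := hN K' hK'D (Fin n × Fin 2) (by
      rw [Fintype.card_prod, Fintype.card_fin, Fintype.card_fin, mul_comm]) (XG Λ p) (Fin n × Fin 2) (by
      rw [Fintype.card_prod, Fintype.card_fin, Fintype.card_fin, mul_comm]) x hcore hLI
  exact ⟨σ, hσ, LIb.mono hKK' hσ2⟩

/-- a field which contains finitely many fields -/
lemma exists_sup {I : Type} (s : Finset I) (K : I → IntermediateField ℚ ℂ) (D : ℕ)
    (h : ∀ i, FiniteDimensional ℚ (K i) ∧ finrank ℚ (K i) ≤ D) :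
    ∃ K' : IntermediateField ℚ ℂ, FiniteDimensional ℚ K' ∧ finrank ℚ K' ≤ D ^ s.card ∧ ∀ i ∈ s, K i ≤ K' := by
  classical
  induction s using Finset.induction_on with
  | empty =>
    refine ⟨⊥, inferInstance, ?_, by simp⟩
    rw [IntermediateField.finrank_bot]
    simp
  | insert i s hi ih =>
    obtain ⟨K', h1, h2, h3⟩ := ih
    obtain ⟨h4, h5⟩ := h i
    refine ⟨K i ⊔ K', inferInstance, ?_, fun j hj => ?_⟩
    · rw [Finset.card_insert_of_notMem hi, pow_succ, mul_comm]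
      exact (IntermediateField.finrank_sup_le _ _).trans (Nat.mul_le_mul h5 h2)
    · rcases Finset.mem_insert.1 hj with rfl | hj
      · exact le_sup_left
      · exact (h3 j hj).trans le_sup_right

/-- the indices can be chosen independently of the field -/
lemma unif {N δ D : ℕ} {ι : Type} [Fintype ι] (z : ι → ℂ)
    (h : ∀ K : IntermediateField ℚ ℂ, FiniteDimensional ℚ K → finrank ℚ K ≤ (D + 1) ^ Fintype.card (Fin N → ι) →
      ∃ σ : Fin N → ι, Function.Injective σ ∧ LIb K δ (fun i => z (σ i))) :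
    ∃ σ : Fin N → ι, Function.Injective σ ∧ ∀ K : IntermediateField ℚ ℂ, FiniteDimensional ℚ K → finrank ℚ K ≤ D →
      LIb K δ (fun i => z (σ i)) := by
  classical
  by_contra hcon
  push Not at hcon
  have h1 : ∀ σ : Fin N → ι, ∃ K : IntermediateField ℚ ℂ, (FiniteDimensional ℚ K ∧ finrank ℚ K ≤ D + 1) ∧
      (Function.Injective σ → ¬ LIb K δ (fun i => z (σ i))) := by
    intro σ
    by_cases hσ : Function.Injective σ
    · obtain ⟨K, k1, k2, k3⟩ := hcon σ hσ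
      exact ⟨K, ⟨k1, k2.trans (Nat.le_succ D)⟩, fun _ => k3⟩
    · refine ⟨⊥, ⟨inferInstance, ?_⟩, fun h => absurd h hσ⟩
      rw [IntermediateField.finrank_bot]
      omega
  choose K hK hKσ using h1
  obtain ⟨K', k1, k2, k3⟩ := exists_sup Finset.univ K (D + 1) hK
  obtain ⟨σ, hσ, hσ2⟩ := h K' k1 k2
  exact hKσ σ hσ (LIb.mono (k3 σ (Finset.mem_univ σ)) hσ2)

/-- **All tuples of a window, all points of all the groups**, with indices which do not depend on the field -/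
theorem any_unif (Λ : PeriodPair) (a b : ℚ) (ha : Λ.g₂ = a) (hb : Λ.g₃ = b) {s₀ : ℕ} (θ : Fin s₀ → ℂ)
    (hθ : ∀ i, IsAlgebraic (Algebra.adjoin ℚ (Set.range θ)) (u4 Λ i)) (r m A n δ D : ℕ) :
    ∃ E : ℕ, ∀ (H : ℕ) (ξ : ℂ), ((H : ℝ) + 2) ^ E ≤ ‖ξ‖ → Ht m A ξ →
      ∀ g : Fin r → ℕ, Function.Injective g → (∀ i, 1 ≤ g i ∧ g i ≤ H) →
      ∀ l : Fin r → ℂ, (∀ i, l i ∉ Λ.lattice ∧ ℘[Λ] (l i) = ξ + g i) →
      ∀ (p : Fin n → ℂ) (B : Fin n → Fin r → ℤ), (∀ j, p j - ∑ i, (B j i : ℂ) * l i ∈ Λ.lattice) →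
        (∀ c : Fin n → ℤ, ∑ j, (c j : ℂ) * p j ∈ Λ.lattice → c = 0) →
        ∃ σ : Fin (2 * n - s₀) → Fin n × Fin 2, Function.Injective σ ∧
          ∀ K : IntermediateField ℚ ℂ, FiniteDimensional ℚ K → finrank ℚ K ≤ D →
            LIb K δ (fun i => XG Λ p (σ i)) := by
  obtain ⟨E, hE⟩ := any Λ a b ha hb θ hθ r m A n δ ((D + 1) ^ Fintype.card (Fin (2 * n - s₀) → Fin n × Fin 2))
  refine ⟨E, fun H ξ hξ hHt g hg hgb l hl p B hpB hind => ?_⟩
  exact unif (XG Λ p) fun K hK hKd => hE H ξ hξ hHt g hg hgb l hl p B hpB hind K hK hKd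

/-- independent rows -/
lemma rows_le {n r : ℕ} (B : Fin n → Fin r → ℤ) (h : ∀ c : Fin n → ℤ, (∀ i, ∑ j, c j * B j i = 0) → c = 0) : n ≤ r := by
  have hs : Function.Surjective (Matrix.mulVecLin (Matrix.of fun j i => (B j i : ℂ))) := by
    intro v
    obtain ⟨y, hy⟩ := right_inv B h v
    exact ⟨y, funext fun j => hy j⟩
  have h1 := LinearMap.finrank_range_le (Matrix.mulVecLin (Matrix.of fun j i => (B j i : ℂ)))
  rw [LinearMap.range_eq_top.2 hs, finrank_top, Module.finrank_fin_fun, Module.finrank_fin_fun] at h1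
  exact h1

/-- the same with an exponent which does not depend on the number of the points -/
theorem any_all (Λ : PeriodPair) (a b : ℚ) (ha : Λ.g₂ = a) (hb : Λ.g₃ = b) {s₀ : ℕ} (θ : Fin s₀ → ℂ)
    (hθ : ∀ i, IsAlgebraic (Algebra.adjoin ℚ (Set.range θ)) (u4 Λ i)) (r m A δ D : ℕ) :
    ∃ E : ℕ, ∀ (H : ℕ) (ξ : ℂ), ((H : ℝ) + 2) ^ E ≤ ‖ξ‖ → Ht m A ξ →
      ∀ g : Fin r → ℕ, Function.Injective g → (∀ i, 1 ≤ g i ∧ g i ≤ H) →
      ∀ l : Fin r → ℂ, (∀ i, l i ∉ Λ.lattice ∧ ℘[Λ] (l i) = ξ + g i) →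
      ∀ (n : ℕ) (p : Fin n → ℂ) (B : Fin n → Fin r → ℤ), (∀ j, p j - ∑ i, (B j i : ℂ) * l i ∈ Λ.lattice) →
        (∀ c : Fin n → ℤ, ∑ j, (c j : ℂ) * p j ∈ Λ.lattice → c = 0) →
        ∃ σ : Fin (2 * n - s₀) → Fin n × Fin 2, Function.Injective σ ∧
          ∀ K : IntermediateField ℚ ℂ, FiniteDimensional ℚ K → finrank ℚ K ≤ D →
            LIb K δ (fun i => XG Λ p (σ i)) := by
  classical
  choose E hE using fun n => any_unif Λ a b ha hb θ hθ r m A n δ D
  refine ⟨∑ n ∈ Finset.range (r + 1), E n, fun H ξ hξ hHt g hg hgb l hl n p B hpB hind => ?_⟩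
  have hn : n ≤ r := by
    refine rows_le B fun c hc => hind c ?_
    have h1 : ∑ j, (c j : ℂ) * p j = ∑ j, (c j : ℂ) * (p j - ∑ i, (B j i : ℂ) * l i) := by
      have h2 : ∑ j, (c j : ℂ) * ∑ i, (B j i : ℂ) * l i = 0 := by
        simp only [Finset.mul_sum]
        rw [Finset.sum_comm]
        refine Finset.sum_eq_zero fun i _ => ?_
        have h3 : ((∑ j, c j * B j i : ℤ) : ℂ) = 0 := by rw [hc i]; simp
        push_cast at h3
        have h4 : ∑ j, (c j : ℂ) * ((B j i : ℂ) * l i) = (∑ j, (c j : ℂ) * (B j i : ℂ)) * l i := by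
          rw [Finset.sum_mul]
          exact Finset.sum_congr rfl fun j _ => by ring
        rw [h4, h3, zero_mul]
      simp only [mul_sub, Finset.sum_sub_distrib, h2, sub_zero]
    rw [h1]
    refine sum_mem fun j _ => ?_
    have h2 : (c j : ℂ) * (p j - ∑ i, (B j i : ℂ) * l i) = c j • (p j - ∑ i, (B j i : ℂ) * l i) := by simp
    rw [h2]
    exact zsmul_mem (hpB j) _
  refine hE n H ξ ((pow_le_pow_right₀ (by linarith [(Nat.cast_nonneg H : (0 : ℝ) ≤ H)]) ?_).trans hξ) hHt g hg hgb l hl p B hpB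
    hind
  exact Finset.single_le_sum (f := E) (fun _ _ => Nat.zero_le _) (Finset.mem_range.2 (by omega))

end Pool.Agent.J6H76.EW
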