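import Pool.Agent.J6H76.EW.Grp

/-!
# All tuples of a window: the groups generated by the elliptic logarithms of least absolute value
-/

set_option autoImplicit false

open Module PowerSeries

namespace Pool.Agent.J6H76.EW

open Pool.Agent.Y113 Pool.Agent.Y916 Pool.Agent.Y916.AW Pool.Agent.Y916.Al Pool.Agent.Y916.Hy Pool.Agent.Y916.Sa
open Pool.Agent.Y916.Sl Pool.Agent.Y916.Sch Pool.Agent.R351.GD
open scoped PeriodPair

/-- the good polynomial -/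
theorem good_of_invariants (L : PeriodPair) (a b : ℚ) (ha : L.g₂ = a) (hb : L.g₃ = b) : Good (Fe a b) := by
  have hab : a ^ 3 - 27 * b ^ 2 ≠ 0 := by
    have h1 := disc_ne Pool.Agent.Y153.HE.t_qp L
    rw [ha, hb] at h1
    exact_mod_cast h1
  exact Fe_good a b hab

/-- the numbers `s U₀(s²) / 2` and `- U₁(s²) / (2 s)`, up to signs, at all tuples of a window -/
theorem free_gen (a b : ℚ) (hF : Good (Fe a b)) (i₀ i₁ : Fin ((Fe a b).natDegree - 1)) (hi₀ : (i₀ : ℕ) = 0)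
    (hi₁ : (i₁ : ℕ) = 1) (r m A : ℕ) :
    ∃ E : ℕ → ℕ, PB E ∧ ∀ (δ H : ℕ) (ξ : ℂ), ((H : ℝ) + 2) ^ E δ ≤ ‖ξ‖ → Ht m A ξ →
      ∀ g : Fin r → ℕ, Function.Injective g → (∀ i, 1 ≤ g i ∧ g i ≤ H) → ∀ s : ℂ, s ^ 2 = 1 / ξ →
      ∀ l z : Fin r → ℂ, (∀ i, ∃ ε : ℤ, (ε = 1 ∨ ε = -1) ∧
        l i = ε * (s * evc (s ^ 2) (Yf (Fe a b) (g i) (Sum.inl i₀)) / 2) ∧
        z i = ε * (-evc (s ^ 2) (Yf (Fe a b) (g i) (Sum.inl i₁)) / (2 * s))) →
      ∀ K : IntermediateField ℚ ℂ, FiniteDimensional ℚ K → finrank ℚ K ≤ δ →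
      ∀ Q : MvPolynomial (Fin r × Fin 2) K, Q.totalDegree ≤ δ →
        MvPolynomial.aeval (fun x : Fin r × Fin 2 => (![l x.1, z x.1] : Fin 2 → ℂ) x.2) Q = 0 → Q = 0 := by
  classical
  have hdeg : (Fe a b).natDegree - 1 = 2 := by rw [Fe_deg]
  obtain ⟨E, hEp, hE⟩ := windowS (vS (Pe a b) (me a b)) (inpE_e a b hF) r m (m * 2) (2 * A + 2)
  refine ⟨fun δ => E δ + 1, hEp.add (PB.const 1), ?_⟩
  intro δ H ξ hξ hHt g hg hgb s hs l z hlz K hKf hKd Q hQd hQ0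
  obtain ⟨p, hp0, hpd, hpY, hp⟩ := hHt
  have hH : (1 : ℝ) ≤ (H : ℝ) + 2 := by linarith [(Nat.cast_nonneg H : (0 : ℝ) ≤ H)]
  have hξ' : ((H : ℝ) + 2) ^ (E δ + 1) ≤ ‖ξ‖ := hξ
  have hξ2 : (2 : ℝ) ≤ ‖ξ‖ := by
    refine le_trans ?_ hξ'
    calc (2 : ℝ) ≤ (H : ℝ) + 2 := by linarith [(Nat.cast_nonneg H : (0 : ℝ) ≤ H)]
      _ ≤ _ := le_self_pow₀ hH (by omega)
  have hξ0 : ξ ≠ 0 := by
    rintro rfl
    rw [norm_zero] at hξ2
    linarith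
  have hs0 : s ≠ 0 := by
    rintro rfl
    rw [zero_pow two_ne_zero] at hs
    exact one_div_ne_zero hξ0 hs.symm
  obtain ⟨K₁, ξ', h1, h2, h3, h4⟩ := pt_root hp0 hpd hpY hp
  obtain ⟨K₀, hKK, hsK, hKf₀, hKd₀⟩ := sqrt_field K₁ h1 s (by
    rw [hs, ← h3]
    exact K₁.div_mem K₁.one_mem ξ'.2)
  have hsK0 : (⟨s, hsK⟩ : K₀) ≠ 0 := fun h => hs0 (congrArg (fun x : K₀ => (x : ℂ)) h)
  -- the embedding of the indices
  let f2 : Fin 2 → Tau (me a b) := ![Sum.inl ⟨0, i₀⟩, Sum.inl ⟨0, i₁⟩]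
  have hf2 : Function.Injective f2 := by
    intro x y hxy
    have hne : i₀ ≠ i₁ := by
      intro h
      rw [h, hi₁] at hi₀
      exact one_ne_zero hi₀
    fin_cases x <;> fin_cases y
    · rfl
    · exfalso
      have h5 : (Sum.inl ⟨0, i₀⟩ : Tau (me a b)) = Sum.inl ⟨0, i₁⟩ := hxy
      have h6 := Sum.inl_injective h5
      exact hne (eq_of_heq (Sigma.mk.inj h6).2)
    · exfalso
      have h5 : (Sum.inl ⟨0, i₁⟩ : Tau (me a b)) = Sum.inl ⟨0, i₀⟩ := hxy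
      have h6 := Sum.inl_injective h5
      exact hne.symm (eq_of_heq (Sigma.mk.inj h6).2)
    · rfl
  let x : Fin r × Tau (me a b) → ℂ := fun q =>
    if q.2 = f2 0 then l q.1 else if q.2 = f2 1 then z q.1 else vS (Pe a b) (me a b) ξ (g q.1) q.2
  have h01 : f2 1 ≠ f2 0 := fun h => by
    have := hf2 h
    exact absurd this (by decide)
  have hmain := hE δ H K₁ ξ' (‖ξ‖ ^ A * (‖ξ‖ ^ A + 2)) h1 h2 h4 (by
      rw [h3]
      exact (pow_le_pow_right₀ hH (by omega)).trans hξ') (by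
      rw [h3]
      have h5 : (1 : ℝ) ≤ ‖ξ‖ ^ A := one_le_pow₀ (by linarith)
      calc ‖ξ‖ ^ A * (‖ξ‖ ^ A + 2) ≤ ‖ξ‖ ^ A * (‖ξ‖ ^ A * ‖ξ‖ ^ 2) := by
            refine mul_le_mul_of_nonneg_left ?_ (by positivity)
            have h6 : (4 : ℝ) ≤ ‖ξ‖ ^ 2 := by nlinarith
            have h7 : ‖ξ‖ ^ A * 4 ≤ ‖ξ‖ ^ A * ‖ξ‖ ^ 2 := mul_le_mul_of_nonneg_left h6 (by positivity)
            linarith
        _ = ‖ξ‖ ^ (2 * A + 2) := by ring) g hg hgb K₀ hKf₀ (hKd₀.trans (Nat.mul_le_mul_right _ h2)) x (by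
      rintro ⟨i, q⟩
      rw [h3]
      obtain ⟨ε, hε, el, ez⟩ := hlz i
      have hε0 : (ε : K₀) ≠ 0 := by
        rcases hε with h | h <;> rw [h] <;> norm_num
      by_cases hq0 : q = f2 0
      · refine ⟨(ε : K₀) * (⟨s, hsK⟩ : K₀) / 2, div_ne_zero (mul_ne_zero hε0 hsK0) two_ne_zero, ?_⟩
        have e1 : x (i, q) = l i := if_pos hq0
        have e2 : vS (Pe a b) (me a b) ξ (g i) q = evc (1 / ξ) (Yf (Fe a b) (g i) (Sum.inl i₀)) := by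
          rw [hq0]
          rfl
        have e3 : (((ε : K₀) * (⟨s, hsK⟩ : K₀) / 2 : K₀) : ℂ) = (ε : ℂ) * s / 2 := by
          push_cast
          rfl
        rw [e1, e3, el]
        change _ = _ * vS (Pe a b) (me a b) ξ (g i) q
        rw [e2, ← hs]
        ring
      by_cases hq1 : q = f2 1
      · refine ⟨-((ε : K₀) / (2 * (⟨s, hsK⟩ : K₀))), neg_ne_zero.2 (div_ne_zero hε0 (mul_ne_zero two_ne_zero hsK0)), ?_⟩
        have e1 : x (i, q) = z i := (if_neg hq0).trans (if_pos hq1)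
        have e2 : vS (Pe a b) (me a b) ξ (g i) q = evc (1 / ξ) (Yf (Fe a b) (g i) (Sum.inl i₁)) := by
          rw [hq1]
          rfl
        have e3 : ((-((ε : K₀) / (2 * (⟨s, hsK⟩ : K₀))) : K₀) : ℂ) = -((ε : ℂ) / (2 * s)) := by
          push_cast
          rfl
        rw [e1, e3, ez]
        change _ = _ * vS (Pe a b) (me a b) ξ (g i) q
        rw [e2, ← hs]
        field_simp
      · refine ⟨1, one_ne_zero, ?_⟩
        have e1 : x (i, q) = vS (Pe a b) (me a b) ξ (g i) q := (if_neg hq0).trans (if_neg hq1)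
        rw [e1]
        simp) K hKf hKd (MvPolynomial.rename (Prod.map id f2) Q) ((MvPolynomial.totalDegree_rename_le _ _).trans hQd) (by
      rw [MvPolynomial.aeval_rename, ← hQ0]
      congr 1
      congr 1
      funext y
      obtain ⟨i, q⟩ := y
      fin_cases q
      · exact if_pos rfl
      · exact (if_neg h01).trans (if_pos rfl))
  exact MvPolynomial.rename_injective _ (Function.Injective.prodMap Function.injective_id hf2) (by rw [hmain, map_zero])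

/-- **All tuples of a window** -/
theorem every (Λ : PeriodPair) (a b : ℚ) (ha : Λ.g₂ = a) (hb : Λ.g₃ = b) (r m A : ℕ) :
    ∃ C : ℕ, ∀ (δ H : ℕ) (ξ : ℂ), ((H : ℝ) + 2) ^ (δ + 2) ^ C ≤ ‖ξ‖ → Ht m A ξ →
      ∀ g : Fin r → ℕ, Function.Injective g → (∀ i, 1 ≤ g i ∧ g i ≤ H) →
      ∀ l : Fin r → ℂ, (∀ i, MinLog Λ (ξ + g i) (l i)) →
      ∀ (n : ℕ) (p : Fin n → ℂ) (B : Fin n → Fin r → ℤ), (∀ j, p j = ∑ i, (B j i : ℂ) * l i) →
        (∀ j, p j ∉ Λ.lattice) → (∀ c : Fin n → ℤ, ∑ j, (c j : ℂ) * p j = 0 → c = 0) → FrS Λ δ p := by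
  classical
  have hF := good_of_invariants Λ a b ha hb
  have hdeg : (Fe a b).natDegree - 1 = 2 := by rw [Fe_deg]
  set i₀ : Fin ((Fe a b).natDegree - 1) := ⟨0, by omega⟩ with hi₀
  set i₁ : Fin ((Fe a b).natDegree - 1) := ⟨1, by omega⟩ with hi₁
  obtain ⟨E₁, hE₁⟩ := minLog_eq Λ a b ha hb i₀ i₁ rfl rfl
  obtain ⟨E₂, hE₂p, hE₂⟩ := free_gen a b hF i₀ i₁ rfl rfl r m A
  have hPB : PB fun δ => E₁ + (E₂ (δ * (6 * (m + 1)) ^ (3 + 2 * Fintype.card (Fin r)) + δ)) + 1 :=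
    ((PB.const E₁).add (hE₂p.comp ((PB.id.mul (PB.const _)).add PB.id))).add (PB.const 1)
  obtain ⟨C, hC⟩ := hPB
  refine ⟨C, fun δ H ξ hξ hHt g hg hgb l hl n p B hpB hp hind => ?_⟩
  have hH : (1 : ℝ) ≤ (H : ℝ) + 2 := by linarith [(Nat.cast_nonneg H : (0 : ℝ) ≤ H)]
  have hbig : ∀ {E : ℕ}, E ≤ E₁ + (E₂ (δ * (6 * (m + 1)) ^ (3 + 2 * Fintype.card (Fin r)) + δ)) + 1 →
      ((H : ℝ) + 2) ^ E ≤ ‖ξ‖ := fun {E} hE =>
    (pow_le_pow_right₀ hH (hE.trans (hC δ))).trans hξ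
  have hξ2 : (2 : ℝ) ≤ ‖ξ‖ := by
    refine le_trans ?_ (hbig (E := 1) (by omega))
    rw [pow_one]
    linarith [(Nat.cast_nonneg H : (0 : ℝ) ≤ H)]
  have hξn : 0 < ‖ξ‖ := by linarith
  have hξ0 : ξ ≠ 0 := norm_pos_iff.1 hξn
  obtain ⟨s, hs⟩ := IsAlgClosed.exists_pow_nat_eq (1 / ξ) (show 0 < 2 by norm_num)
  have hs0 : s ≠ 0 := by
    rintro rfl
    rw [zero_pow two_ne_zero] at hs
    exact one_div_ne_zero hξ0 hs.symm
  have hα : ∀ i, 1 / s ^ 2 + (g i : ℂ) = ξ + g i := fun i => by rw [hs, one_div_one_div]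
  have hlz : ∀ i, ∃ ε : ℤ, (ε = 1 ∨ ε = -1) ∧
        l i = ε * (s * evc (s ^ 2) (Yf (Fe a b) (g i) (Sum.inl i₀)) / 2) ∧
        zeta Λ (l i) = ε * (-evc (s ^ 2) (Yf (Fe a b) (g i) (Sum.inl i₁)) / (2 * s)) := by
    intro i
    refine hE₁ (g i) s hs0 ?_ (l i) (by rw [hα i]; exact hl i)
    rw [← norm_pow, hs, norm_div, norm_one, div_mul_eq_mul_div, one_mul, div_le_one hξn]
    refine le_trans ?_ (hbig (E := E₁) (by omega))
    have h5 : (g i : ℝ) ≤ H := by exact_mod_cast (hgb i).2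
    exact pow_le_pow_left₀ (by positivity) (by linarith) _
  obtain ⟨pξ, hp0, hpd, hpY, hpz⟩ := hHt
  obtain ⟨K₁, ξ', k1, k2, k3, -⟩ := pt_root hp0 hpd hpY hpz
  refine grp_relS Λ a b ha hb (m := m + 1) (by omega) (fun i => ξ + g i) (fun i => ⟨K₁, k1, k2.trans (Nat.le_succ m), by
    rw [← k3]
    exact add_mem ξ'.2 (natCast_mem _ _)⟩) l (fun i => (hl i).1) (fun i => (hl i).2.1) ?_ p B hpB hp hind
  intro K hK hKd Q hQd hQ0
  refine hE₂ (δ * (6 * (m + 1)) ^ (3 + 2 * Fintype.card (Fin r)) + δ) H ξ (hbig (by omega)) ⟨pξ, hp0, hpd, hpY, hpz⟩ g hg hgb s hs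
    l (fun i => zeta Λ (l i)) hlz K hK (hKd.trans (Nat.le_add_right _ _)) Q (hQd.trans (Nat.le_add_left _ _)) ?_
  rw [← hQ0]
  congr 1

end Pool.Agent.J6H76.EW
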