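import Pool.Agent.R351.GD.S.AllW
import Pool.Agent.Y71.SLW.WPC

/-!
# Elliptic logarithms of least absolute value at all tuples of a window
-/

set_option autoImplicit false

open Module PowerSeries

namespace Pool.Agent.J6H76.EW

open Pool.Agent.Y113 Pool.Agent.Y916 Pool.Agent.Y916.AW Pool.Agent.Y916.Al Pool.Agent.Y916.Hy Pool.Agent.Y916.Sa
open Pool.Agent.Y916.Sl Pool.Agent.R351.GD
open scoped PeriodPair

/-- windows without exceptions for numbers linked to the values without constants -/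
theorem windowS {σ : Type} [Fintype σ] [DecidableEq σ] (val : ℂ → ℕ → σ → ℂ) (hval : InpE val) (r m e A : ℕ) :
    ∃ E : ℕ → ℕ, PB E ∧ ∀ (δ H : ℕ) (K₁ : IntermediateField ℚ ℂ) (ξ : K₁) (X : ℝ), FiniteDimensional ℚ K₁ →
      finrank ℚ K₁ ≤ m → Al.Pt K₁ ξ X → ((H : ℝ) + 2) ^ E δ ≤ ‖(ξ : ℂ)‖ → X ≤ ‖(ξ : ℂ)‖ ^ A →
        ∀ g : Fin r → ℕ, Function.Injective g → (∀ i, 1 ≤ g i ∧ g i ≤ H) →
        ∀ K₀ : IntermediateField ℚ ℂ, FiniteDimensional ℚ K₀ → finrank ℚ K₀ ≤ e →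
        ∀ x : Fin r × σ → ℂ, (∀ p, ∃ a : K₀, a ≠ 0 ∧ x p = a * val ξ (g p.1) p.2) →
        ∀ K : IntermediateField ℚ ℂ, FiniteDimensional ℚ K → finrank ℚ K ≤ δ →
        ∀ P : MvPolynomial (Fin r × σ) K, P.totalDegree ≤ δ → MvPolynomial.aeval x P = 0 → P = 0 := by
  classical
  obtain ⟨Ev, hEvp, hEv⟩ := inpE_I hval m A
  obtain ⟨E₂, hE₂p, hE₂⟩ := winF_exp Ev hEvp (σ := σ) r e 0 1 1
  refine ⟨E₂, hE₂p, fun δ H K₁ ξ X hK₁f hK₁d hPt hξ hXξ g hg hgb K₀ hK₀f hK₀d x hx K hKf hKd P hPd hPv => ?_⟩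
  set i : PtI m A := ⟨K₁, ξ, X, hK₁f, hK₁d, hPt, hXξ⟩ with hi
  have hsize : (H + 2) ^ E₂ δ ≤ i.size := Nat.le_floor (by push_cast; exact hξ)
  obtain ⟨S, hS, hwin⟩ := hE₂ δ ℂ (PtI m A) PtI.size _ hEv H i hsize (Fin 0) Fin.elim0 Finset.univ (by simp)
    (Om.Dom.univ _) K₀ hK₀f hK₀d
  have hS0 : S = ∅ := Finset.card_eq_zero.1 (by omega)
  have h9 := hwin g hg (fun i => ⟨(hgb i).1, (hgb i).2, by rw [hS0]; simp⟩) x (fun p => by
      obtain ⟨a, ha, h1⟩ := hx p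
      refine ⟨a, ha, ?_⟩
      rw [h1]
      change (a : ℂ) * val ξ (g p.1) p.2 - a * val ξ (g p.1) p.2 ∈ _
      rw [sub_self]
      exact zero_mem _) K hKf hKd x (fun p => ⟨1, one_ne_zero, by simp⟩) (MvPolynomial.rename Sum.inr P)
    ((MvPolynomial.totalDegree_rename_le _ _).trans hPd) (by
      rw [MvPolynomial.aeval_rename, ← hPv]
      congr 2)
  rw [MvPolynomial.aeval_rename] at h9
  have h10 : MvPolynomial.map (algebraMap K ℂ) P = 0 := by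
    rw [← h9]
    have h11 : (Sum.elim (fun j => MvPolynomial.C ((Fin.elim0 : Fin 0 → ℂ) j)) MvPolynomial.X ∘ Sum.inr :
        Fin r × σ → MvPolynomial (Fin r × σ) ℂ) = MvPolynomial.X := rfl
    rw [h11]
    have h12 : MvPolynomial.map (algebraMap K ℂ) =
        ((MvPolynomial.aeval (MvPolynomial.X : Fin r × σ → MvPolynomial (Fin r × σ) ℂ) :
          MvPolynomial (Fin r × σ) K →ₐ[K] MvPolynomial (Fin r × σ) ℂ) : MvPolynomial (Fin r × σ) K →+* _) := by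
      refine MvPolynomial.ringHom_ext (fun c => ?_) (fun i => ?_)
      · rw [MvPolynomial.map_C, AlgHom.coe_toRingHom, MvPolynomial.aeval_C]
        rfl
      · rw [MvPolynomial.map_X, AlgHom.coe_toRingHom, MvPolynomial.aeval_X]
    rw [h12]
    rfl
  exact (MvPolynomial.map_injective _ (algebraMap K ℂ).injective) (by rw [h10, map_zero])

/-- `p` is an elliptic logarithm of `α` of least absolute value -/
def MinLog (L : PeriodPair) (α p : ℂ) : Prop :=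
  p ∉ L.lattice ∧ ℘[L] p = α ∧ ∀ ω ∈ L.lattice, ‖p‖ ≤ ‖p + ω‖

theorem minLog_eq (L : PeriodPair) (a b : ℚ) (ha : L.g₂ = a) (hb : L.g₃ = b)
    (i₀ i₁ : Fin ((Fe a b).natDegree - 1)) (hi₀ : (i₀ : ℕ) = 0) (hi₁ : (i₁ : ℕ) = 1) :
    ∃ E : ℕ, ∀ (g : ℕ) (s : ℂ), s ≠ 0 → ‖s‖ ^ 2 * ((g : ℝ) + 2) ^ E ≤ 1 → ∀ p : ℂ, MinLog L (1 / s ^ 2 + g) p →
      ∃ ε : ℤ, (ε = 1 ∨ ε = -1) ∧ p = ε * (s * evc (s ^ 2) (Yf (Fe a b) g (Sum.inl i₀)) / 2) ∧
        zeta L p = ε * (-evc (s ^ 2) (Yf (Fe a b) g (Sum.inl i₁)) / (2 * s)) := by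
  have hab : a ^ 3 - 27 * b ^ 2 ≠ 0 := by
    have h1 := disc_ne Pool.Agent.Y153.HE.t_qp L
    rw [ha, hb] at h1
    exact_mod_cast h1
  have hF := Fe_good a b hab
  obtain ⟨E₁, hE₁⟩ := tW L a b ha hb hF i₀ i₁ hi₀ hi₁
  obtain ⟨E₂, hE₂⟩ := Pool.Agent.Y71.SLW.coef_bound hF
  obtain ⟨lam, hlam, hball⟩ := Pool.Agent.Y71.SLW.exists_lam L
  obtain ⟨c, hc⟩ := exists_nat_ge (2 / lam)
  refine ⟨E₁ + (2 * E₂ + 1 + (2 * c + 2)), ?_⟩
  intro g s hs hsE p hp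
  set G : ℝ := (g : ℝ) + 2 with hG
  have hG2 : 2 ≤ G := by
    rw [hG]
    have : (0 : ℝ) ≤ g := Nat.cast_nonneg g
    linarith
  have hG1 : 1 ≤ G := by linarith
  have hsn : 0 < ‖s‖ := norm_pos_iff.2 hs
  have hle : ∀ {n : ℕ}, n ≤ E₁ + (2 * E₂ + 1 + (2 * c + 2)) → ‖s‖ ^ 2 * G ^ n ≤ 1 := by
    intro n hn
    refine le_trans ?_ hsE
    exact mul_le_mul_of_nonneg_left (pow_le_pow_right₀ hG1 hn) (by positivity)
  obtain ⟨h1, h2, h3⟩ := hE₁ g s hs (hle (by omega))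
  set p₀ : ℂ := s * evc (s ^ 2) (Yf (Fe a b) g (Sum.inl i₀)) / 2 with hp₀
  -- the size of `p₀`
  set A : ℝ := G ^ E₂ with hA
  have hA1 : 1 ≤ A := one_le_pow₀ hG1
  have hcoef := hE₂ g i₀ (by omega)
  have hnear := Pool.Agent.Y71.SLW.evc_near (z := s ^ 2) hA1 hcoef (by
    rw [norm_pow]
    refine le_trans ?_ (hle (n := 2 * E₂ + 1) (by omega))
    refine mul_le_mul_of_nonneg_left ?_ (by positivity)
    have e1 : G ^ (2 * E₂ + 1) = A ^ 2 * G := by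
      rw [hA]
      ring
    rw [e1]
    nlinarith [sq_nonneg A])
  have hnear1 : ‖(s ^ 2 : ℂ)‖ * (2 * A ^ 2) ≤ 1 := by
    rw [norm_pow]
    refine le_trans ?_ (hle (n := 2 * E₂ + 1) (by omega))
    refine mul_le_mul_of_nonneg_left ?_ (by positivity)
    have e1 : G ^ (2 * E₂ + 1) = A ^ 2 * G := by
      rw [hA]
      ring
    rw [e1]
    nlinarith [sq_nonneg A]
  have h0 : ‖((coeff 0 (Yf (Fe a b) g (Sum.inl i₀)) : ℚ) : ℂ)‖ ≤ A := by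
    have := hcoef 0
    rwa [pow_zero, mul_one] at this
  have hev : ‖evc (s ^ 2) (Yf (Fe a b) g (Sum.inl i₀))‖ ≤ 2 * A := by
    have h4 : evc (s ^ 2) (Yf (Fe a b) g (Sum.inl i₀)) = (evc (s ^ 2) (Yf (Fe a b) g (Sum.inl i₀)) -
        ((coeff 0 (Yf (Fe a b) g (Sum.inl i₀)) : ℚ) : ℂ)) + ((coeff 0 (Yf (Fe a b) g (Sum.inl i₀)) : ℚ) : ℂ) := by ring
    rw [h4]
    refine (norm_add_le _ _).trans ?_
    linarith
  have hp₀n : ‖p₀‖ ≤ ‖s‖ * A := by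
    rw [hp₀, norm_div, norm_mul]
    have : ‖(2 : ℂ)‖ = 2 := by simp
    rw [this]
    have := mul_le_mul_of_nonneg_left hev hsn.le
    linarith
  have hsmall : 2 * (‖s‖ * A) < lam := by
    have h5 : ‖s‖ ^ 2 * G ^ (2 * E₂ + (2 * c + 2)) ≤ 1 := hle (by omega)
    have h6 : G ^ (2 * E₂ + (2 * c + 2)) = (A * G ^ (c + 1)) ^ 2 := by
      rw [hA, ← pow_add, ← pow_mul]
      congr 1
      ring
    rw [h6, ← mul_pow] at h5
    have h7 : ‖s‖ * (A * G ^ (c + 1)) ≤ 1 := by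
      have h8 : 0 ≤ ‖s‖ * (A * G ^ (c + 1)) := by positivity
      nlinarith
    have h8 : (c : ℝ) < G ^ (c + 1) := by
      have h9 : (c : ℝ) < 2 ^ (c + 1) := by
        have : c < 2 ^ (c + 1) := (Nat.lt_two_pow_self).trans (Nat.pow_lt_pow_right (by norm_num) (Nat.lt_succ_self c))
        exact_mod_cast this
      exact h9.trans_le (pow_le_pow_left₀ (by norm_num) hG2 _)
    have h9 : 2 / lam < G ^ (c + 1) := lt_of_le_of_lt hc h8
    rw [div_lt_iff₀ hlam] at h9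
    have h10 : 0 < ‖s‖ * A := by positivity
    have h11 : 2 * (‖s‖ * A) < (G ^ (c + 1) * lam) * (‖s‖ * A) := by
      exact mul_lt_mul_of_pos_right h9 h10
    have h12 : (G ^ (c + 1) * lam) * (‖s‖ * A) = lam * (‖s‖ * (A * G ^ (c + 1))) := by ring
    rw [h12] at h11
    have h13 : lam * (‖s‖ * (A * G ^ (c + 1))) ≤ lam * 1 := mul_le_mul_of_nonneg_left h7 hlam.le
    linarith
  -- comparison
  obtain ⟨hpL, hpα, hpm⟩ := hp
  obtain ⟨ε, m₁, m₂, hε, q1, q2⟩ := qp' L h1 hpL (by rw [hpα, h2])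
  have hω : (m₁ : ℂ) * L.ω₁ + m₂ * L.ω₂ ∈ L.lattice := PeriodPair.mem_lattice.2 ⟨m₁, m₂, rfl⟩
  have hpn : ‖p‖ ≤ ‖p₀‖ := by
    have h4 := hpm (-((m₁ : ℂ) * L.ω₁ + m₂ * L.ω₂)) (neg_mem hω)
    have h5 : p + -((m₁ : ℂ) * L.ω₁ + m₂ * L.ω₂) = ε * p₀ := by
      linear_combination q1
    rw [h5, norm_mul] at h4
    have h6 : ‖(ε : ℂ)‖ = 1 := by
      rcases hε with h | h <;> rw [h] <;> simp
    rwa [h6, one_mul] at h4
  have hzero : (m₁ : ℂ) * L.ω₁ + m₂ * L.ω₂ = 0 := by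
    by_contra hne
    refine hball ((m₁ : ℂ) * L.ω₁ + m₂ * L.ω₂) ?_ ⟨hω, hne⟩
    rw [Metric.mem_ball, dist_zero_right]
    have h5 : (m₁ : ℂ) * L.ω₁ + m₂ * L.ω₂ = p - ε * p₀ := by linear_combination -q1
    rw [h5]
    refine lt_of_le_of_lt (norm_sub_le _ _) ?_
    have h6 : ‖(ε : ℂ)‖ = 1 := by
      rcases hε with h | h <;> rw [h] <;> simp
    rw [norm_mul, h6, one_mul]
    linarith
  have h6 := indep_z L (x := (m₁ : ℝ)) (y := (m₂ : ℝ)) (by push_cast; exact hzero)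
  have hm₁ : m₁ = 0 := by exact_mod_cast h6.1
  have hm₂ : m₂ = 0 := by exact_mod_cast h6.2
  refine ⟨ε, hε, ?_, ?_⟩
  · rw [q1, hm₁, hm₂]
    push_cast
    ring
  · rw [q2, hm₁, hm₂, h3]
    push_cast
    ring

end Pool.Agent.J6H76.EW
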