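import Pool.Agent.R351.GD.E.Rel
import Pool.Agent.J6H76.EW.Wnd

/-!
# Points of the group generated by the elliptic logarithms of least absolute value
-/

set_option autoImplicit false

open Module PowerSeries

namespace Pool.Agent.J6H76.EW

open Pool.Agent.Y113 Pool.Agent.Y916 Pool.Agent.Y916.AW Pool.Agent.Y916.Al Pool.Agent.Y916.Hy Pool.Agent.Y916.Sa
open Pool.Agent.Y916.Sl Pool.Agent.Y916.Sch Pool.Agent.R351.GD
open scoped PeriodPair

/-- the field of the coordinates -/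
theorem coord_field (Λ : PeriodPair) (a b : ℚ) (ha : Λ.g₂ = a) (hb : Λ.g₃ = b) {m : ℕ} (hm : 1 ≤ m) {ι : Type} [Fintype ι]
    (α : ι → ℂ) (hα : ∀ i, ∃ K : IntermediateField ℚ ℂ, FiniteDimensional ℚ K ∧ finrank ℚ K ≤ m ∧ α i ∈ K)
    (l : ι → ℂ) (hl : ∀ i, l i ∉ Λ.lattice) (hlα : ∀ i, ℘[Λ] (l i) = α i) (L : IntermediateField ℚ ℂ)
    (hL1 : FiniteDimensional ℚ L) :
    ∃ K : IntermediateField ℚ ℂ, L ≤ K ∧ FiniteDimensional ℚ K ∧
      finrank ℚ K ≤ finrank ℚ L * (6 * m) ^ (3 + 2 * Fintype.card ι) ∧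
      (∀ i, ℘[Λ] (l i) ∈ K ∧ ℘'[Λ] (l i) ∈ K) ∧ Λ.g₂ ∈ K ∧ ∀ w ∈ Λ.lattice, ℘[Λ] (w / 2) ∈ K := by
  classical
  have hsq : ∀ i, ℘'[Λ] (l i) ^ 2 = 4 * α i ^ 3 - a * α i - b := by
    intro i
    have h := Λ.derivWeierstrassP_sq (l i) (hl i)
    rw [ha, hb] at h
    rw [h, hlα i]
  have hαd : ∀ i, IsIntegral ℚ (α i) ∧ (minpoly ℚ (α i)).natDegree ≤ m := by
    intro i
    obtain ⟨K₁, h3, h4, h5⟩ := hα i
    exact deg_mem h3 h4 h5
  have hβd : ∀ i, IsIntegral ℚ (℘'[Λ] (l i)) ∧ (minpoly ℚ (℘'[Λ] (l i))).natDegree ≤ 2 * m := by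
    intro i
    obtain ⟨K₁, h3, h4, h5⟩ := hα i
    refine deg_sqrt (hsq i) (deg_mem h3 h4 ?_)
    have ha' : (a : ℂ) ∈ K₁ := by
      have := K₁.algebraMap_mem a
      simpa using this
    have hb' : (b : ℂ) ∈ K₁ := by
      have := K₁.algebraMap_mem b
      simpa using this
    have h4' : (4 : ℂ) ∈ K₁ := by exact_mod_cast natCast_mem K₁ 4
    exact sub_mem (sub_mem (mul_mem h4' (pow_mem h5 3)) (mul_mem ha' h5)) hb'
  -- the cubic
  set f : Polynomial ℚ := Polynomial.C 4 * Polynomial.X ^ 3 - Polynomial.C a * Polynomial.X - Polynomial.C b with hf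
  have hfd : f.natDegree ≤ 3 := by
    rw [hf]
    compute_degree
  have hf0 : f ≠ 0 := by
    intro h0
    have h3 : f.coeff 3 = 4 := by
      rw [hf]
      simp [Polynomial.coeff_X, Polynomial.coeff_C]
    rw [h0, Polynomial.coeff_zero] at h3
    norm_num at h3
  set R : Finset ℂ := (f.map (algebraMap ℚ ℂ)).roots.toFinset with hR
  have hRc : R.card ≤ 3 := by
    refine (Multiset.toFinset_card_le _).trans ((Polynomial.card_roots' _).trans ?_)
    rw [Polynomial.natDegree_map]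
    exact hfd
  have hfm0 : f.map (algebraMap ℚ ℂ) ≠ 0 := (Polynomial.map_ne_zero_iff (algebraMap ℚ ℂ).injective).2 hf0
  have hRd : ∀ z ∈ R, IsIntegral ℚ z ∧ (minpoly ℚ z).natDegree ≤ 3 := by
    intro z hz
    rw [hR, Multiset.mem_toFinset, Polynomial.mem_roots hfm0, Polynomial.IsRoot.def, Polynomial.eval_map_algebraMap] at hz
    have h1 : IsAlgebraic ℚ z := ⟨f, hf0, hz⟩
    exact ⟨h1.isIntegral, (Polynomial.natDegree_le_of_dvd (minpoly.dvd ℚ z hz) hf0).trans hfd⟩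
  obtain ⟨K, hK1, hK2, hK3, hK4⟩ := Pool.Agent.Y916.Om.field L hL1 (6 * m)
      (R ∪ (Finset.univ.image α ∪ Finset.univ.image fun i => ℘'[Λ] (l i))) (by
    intro v hv
    rcases Finset.mem_union.1 hv with hv | hv
    · exact ⟨(hRd v hv).1, (hRd v hv).2.trans (by omega)⟩
    rcases Finset.mem_union.1 hv with hv | hv
    · obtain ⟨i, -, rfl⟩ := Finset.mem_image.1 hv
      exact ⟨(hαd i).1, (hαd i).2.trans (by omega)⟩
    · obtain ⟨i, -, rfl⟩ := Finset.mem_image.1 hv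
      exact ⟨(hβd i).1, (hβd i).2.trans (by omega)⟩)
  have hmemK : ∀ x ∈ R ∪ (Finset.univ.image α ∪ Finset.univ.image fun i => ℘'[Λ] (l i)), x ∈ K := fun x hx =>
    hK2 (IntermediateField.subset_adjoin ℚ _ (Finset.mem_coe.2 hx))
  have hαK : ∀ i, α i ∈ K := fun i => hmemK _ (Finset.mem_union_right _ (Finset.mem_union_left _
      (Finset.mem_image_of_mem α (Finset.mem_univ i))))
  have hβK : ∀ i, ℘'[Λ] (l i) ∈ K := fun i => hmemK _ (Finset.mem_union_right _ (Finset.mem_union_right _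
      (Finset.mem_image_of_mem (fun i => ℘'[Λ] (l i)) (Finset.mem_univ i))))
  refine ⟨K, hK1, hK3, ?_, fun i => ⟨by rw [hlα i]; exact hαK i, hβK i⟩, ?_, ?_⟩
  · refine hK4.trans (Nat.mul_le_mul le_rfl (Nat.pow_le_pow_right (by omega) ?_))
    refine (Finset.card_union_le _ _).trans (Nat.add_le_add hRc ?_)
    refine (Finset.card_union_le _ _).trans ?_
    have h3 := Finset.card_image_le (s := (Finset.univ : Finset ι)) (f := α)
    have h4 := Finset.card_image_le (s := (Finset.univ : Finset ι)) (f := fun i => ℘'[Λ] (l i))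
    rw [Finset.card_univ] at h3 h4
    omega
  · rw [ha]
    have := K.algebraMap_mem a
    simpa using this
  · intro v hv
    by_cases hv2 : v / 2 ∈ Λ.lattice
    · have : ℘[Λ] (v / 2) = 0 := Λ.weierstrassP_coe ⟨v / 2, hv2⟩
      rw [this]
      exact zero_mem _
    · have h := Λ.derivWeierstrassP_sq (v / 2) hv2
      rw [H667R3.wp'_half_eq_zero Λ hv, ha, hb] at h
      refine hmemK _ (Finset.mem_union_left _ ?_)
      rw [hR, Multiset.mem_toFinset, Polynomial.mem_roots hfm0, Polynomial.IsRoot.def, Polynomial.eval_map_algebraMap, hf]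
      simp only [map_sub, map_mul, map_pow, Polynomial.aeval_X, Polynomial.aeval_C, map_ofNat]
      simp only [eq_ratCast]
      linear_combination (-1 : ℂ) * h

/-- relations of bounded degree are identities in `p_i, ζ(p_i)` -/
def FrS (Λ : PeriodPair) (δ : ℕ) {n : ℕ} (p : Fin n → ℂ) : Prop :=
  ∀ L : IntermediateField ℚ ℂ, FiniteDimensional ℚ L → finrank ℚ L ≤ δ →
  ∀ P : MvPolynomial ((Fin n × Fin 2) ⊕ (Fin n × Fin 2)) L, P.totalDegree ≤ δ →
  MvPolynomial.aeval (Sum.elim (XG Λ p) (EG Λ p)) P = 0 →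
  ∀ y : Fin n × Fin 2 → ℂ, MvPolynomial.aeval (Sum.elim y (EG Λ p)) P = 0

/-- the numbers `l_i, ζ(l_i)` -/
noncomputable def XI (Λ : PeriodPair) {ι : Type} (l : ι → ℂ) : ι × Fin 2 → ℂ :=
  fun a => ![l a.1, H667R3.zeta Λ (l a.1)] a.2

theorem grp_relS (Λ : PeriodPair) (a b : ℚ) (ha : Λ.g₂ = a) (hb : Λ.g₃ = b) {m δ n : ℕ} (hm : 1 ≤ m) {ι : Type} [Fintype ι]
    (α : ι → ℂ) (hα : ∀ i, ∃ K : IntermediateField ℚ ℂ, FiniteDimensional ℚ K ∧ finrank ℚ K ≤ m ∧ α i ∈ K)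
    (l : ι → ℂ) (hl : ∀ i, l i ∉ Λ.lattice) (hlα : ∀ i, ℘[Λ] (l i) = α i)
    (hfree : ∀ K : IntermediateField ℚ ℂ, FiniteDimensional ℚ K →
      finrank ℚ K ≤ δ * (6 * m) ^ (3 + 2 * Fintype.card ι) →
      ∀ Q : MvPolynomial (ι × Fin 2) K, Q.totalDegree ≤ δ → MvPolynomial.aeval (XI Λ l) Q = 0 → Q = 0)
    (p : Fin n → ℂ) (A : Fin n → ι → ℤ) (hpA : ∀ j, p j = ∑ i, (A j i : ℂ) * l i) (hp : ∀ j, p j ∉ Λ.lattice)
    (hind : ∀ c : Fin n → ℤ, ∑ j, (c j : ℂ) * p j = 0 → c = 0) : FrS Λ δ p := by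
  classical
  intro L hL1 hL2 P hP1 hP2 y₀
  obtain ⟨K, hK1, hK3, hK4, hlK, hgK, hh⟩ := coord_field Λ a b ha hb hm α hα l hl hlα L hL1
  have hKd : finrank ℚ K ≤ δ * (6 * m) ^ (3 + 2 * Fintype.card ι) := hK4.trans (Nat.mul_le_mul hL2 le_rfl)
  have hgrp := fun j => grp_mem Λ K hgK hh l hl hlK (A j) (p j) (hp j) (by
    rw [hpA j, sub_self]
    exact zero_mem _)
  choose hp1 hp2 m₁ m₂ κ hκ hpe hze using hgrp
  have hm0 : ∀ j, m₁ j = 0 ∧ m₂ j = 0 := by
    intro j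
    have h1 : (m₁ j : ℂ) * Λ.ω₁ + m₂ j * Λ.ω₂ = 0 := by
      have h2 := hpe j
      rw [← hpA j] at h2
      linear_combination -h2
    have h6 := indep_z Λ (x := (m₁ j : ℝ)) (y := (m₂ j : ℝ)) (by push_cast; exact h1)
    exact ⟨by exact_mod_cast h6.1, by exact_mod_cast h6.2⟩
  -- the substitution
  let S1 : Fin n → MvPolynomial (ι × Fin 2) K := fun j =>
    ∑ i, MvPolynomial.C ((A j i : ℤ) : K) * MvPolynomial.X (i, 0)
  let S2 : Fin n → MvPolynomial (ι × Fin 2) K := fun j =>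
    ∑ i, MvPolynomial.C ((A j i : ℤ) : K) * MvPolynomial.X (i, 1) + MvPolynomial.C (⟨κ j, hκ j⟩ : K)
  let g : (Fin n × Fin 2) ⊕ (Fin n × Fin 2) → MvPolynomial (ι × Fin 2) K :=
    Sum.elim (fun c => ![S1 c.1, S2 c.1] c.2)
      fun c => ![MvPolynomial.C (⟨℘[Λ] (p c.1), hp1 c.1⟩ : K), MvPolynomial.C (⟨℘'[Λ] (p c.1), hp2 c.1⟩ : K)] c.2
  have hCX : ∀ (c : K) (i : ι × Fin 2),
      (MvPolynomial.C c * MvPolynomial.X i : MvPolynomial (ι × Fin 2) K).totalDegree ≤ 1 := by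
    intro c i
    refine (MvPolynomial.totalDegree_mul _ _).trans ?_
    rw [MvPolynomial.totalDegree_C, zero_add, MvPolynomial.totalDegree_X]
  have hsum : ∀ (F : ι → MvPolynomial (ι × Fin 2) K), (∀ i, (F i).totalDegree ≤ 1) →
      (∑ i, F i).totalDegree ≤ 1 := fun F hF =>
    MvPolynomial.totalDegree_finsetSum_le fun i _ => hF i
  have hadd : ∀ F G : MvPolynomial (ι × Fin 2) K, F.totalDegree ≤ 1 → G.totalDegree ≤ 1 →
      (F + G).totalDegree ≤ 1 := fun F G h1 h2 => (MvPolynomial.totalDegree_add _ _).trans (max_le h1 h2)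
  have hS1 : ∀ j, (S1 j).totalDegree ≤ 1 := fun j => hsum _ fun i => hCX _ _
  have hS2 : ∀ j, (S2 j).totalDegree ≤ 1 := fun j =>
    hadd _ _ (hsum _ fun i => hCX _ _) (by
      rw [MvPolynomial.totalDegree_C]
      exact Nat.zero_le _)
  have hg1 : ∀ c, (g c).totalDegree ≤ 1 := by
    rintro (⟨j, c⟩ | ⟨j, c⟩)
    · fin_cases c
      · exact hS1 j
      · exact hS2 j
    · fin_cases c
      · show (MvPolynomial.C _ : MvPolynomial (ι × Fin 2) K).totalDegree ≤ 1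
        rw [MvPolynomial.totalDegree_C]
        exact Nat.zero_le _
      · show (MvPolynomial.C _ : MvPolynomial (ι × Fin 2) K).totalDegree ≤ 1
        rw [MvPolynomial.totalDegree_C]
        exact Nat.zero_le _
  -- the polynomial over `K`
  let iK : L →+* K := (IntermediateField.inclusion hK1).toRingHom
  set P' : MvPolynomial (ι × Fin 2) K := MvPolynomial.eval₂ ((MvPolynomial.C).comp iK) g P with hP'
  have hP'd : P'.totalDegree ≤ δ := by
    rw [hP', MvPolynomial.eval₂_eq]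
    refine MvPolynomial.totalDegree_finsetSum_le fun s hs => ?_
    refine (MvPolynomial.totalDegree_mul _ _).trans ?_
    rw [RingHom.comp_apply, MvPolynomial.totalDegree_C, zero_add]
    refine (MvPolynomial.totalDegree_finset_prod _ _).trans ?_
    refine le_trans (Finset.sum_le_sum fun i _ => ?_) ((MvPolynomial.le_totalDegree hs).trans hP1)
    refine (MvPolynomial.totalDegree_pow _ _).trans ?_
    exact (Nat.mul_le_mul_left _ (hg1 i)).trans (by rw [mul_one])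
  have hev : ∀ y : ι × Fin 2 → ℂ, MvPolynomial.aeval y P' =
      MvPolynomial.aeval (Sum.elim (fun c : Fin n × Fin 2 => MvPolynomial.aeval y
        (![S1 c.1, S2 c.1] c.2)) (EG Λ p)) P := by
    intro y
    rw [hP', MvPolynomial.aeval_def, MvPolynomial.aeval_def]
    have h1 := MvPolynomial.hom_eval₂ P ((MvPolynomial.C).comp iK)
      (MvPolynomial.aeval y : MvPolynomial (ι × Fin 2) K →ₐ[K] ℂ).toRingHom g
    refine h1.trans ?_
    congr 1
    · refine RingHom.ext fun x => ?_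
      show MvPolynomial.aeval y (MvPolynomial.C (iK x)) = _
      rw [MvPolynomial.aeval_C]
      rfl
    · funext c
      show MvPolynomial.aeval y (g c) = _
      rcases c with c | c
      · rfl
      · obtain ⟨j, c⟩ := c
        fin_cases c
        · show MvPolynomial.aeval y (MvPolynomial.C (⟨℘[Λ] (p j), hp1 j⟩ : K)) = ℘[Λ] (p j)
          rw [MvPolynomial.aeval_C]
          rfl
        · show MvPolynomial.aeval y (MvPolynomial.C (⟨℘'[Λ] (p j), hp2 j⟩ : K)) = ℘'[Λ] (p j)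
          rw [MvPolynomial.aeval_C]
          rfl
  have hint : ∀ (c : ℤ), algebraMap K ℂ ((c : ℤ) : K) = (c : ℂ) := fun c => by simp
  have hS1e : ∀ (y : ι × Fin 2 → ℂ) (j : Fin n), MvPolynomial.aeval y (S1 j) = ∑ i, (A j i : ℂ) * y (i, 0) := by
    intro y j
    show MvPolynomial.aeval y (∑ i, MvPolynomial.C ((A j i : ℤ) : K) * MvPolynomial.X (i, 0)) = _
    simp only [map_sum, map_mul, MvPolynomial.aeval_C, hint, MvPolynomial.aeval_X]
  have hS2e : ∀ (y : ι × Fin 2 → ℂ) (j : Fin n), MvPolynomial.aeval y (S2 j) =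
      ∑ i, (A j i : ℂ) * y (i, 1) + κ j := by
    intro y j
    show MvPolynomial.aeval y (∑ i, MvPolynomial.C ((A j i : ℤ) : K) * MvPolynomial.X (i, 1) +
      MvPolynomial.C (⟨κ j, hκ j⟩ : K)) = _
    simp only [map_add, map_sum, map_mul, MvPolynomial.aeval_C, hint, MvPolynomial.aeval_X]
    rfl
  have hzero : P' = 0 := by
    refine hfree K hK3 hKd P' hP'd ?_
    rw [hev, ← hP2]
    congr 1
    congr 1
    funext c
    rcases c with c | c
    · obtain ⟨j, c⟩ := c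
      fin_cases c
      · show MvPolynomial.aeval _ (S1 j) = p j
        rw [hS1e, hpA j]
        rfl
      · show MvPolynomial.aeval _ (S2 j) = H667R3.zeta Λ (p j)
        rw [hS2e, hze j, (hm0 j).1, (hm0 j).2]
        simp only [Int.cast_zero, mul_zero, zero_mul, add_zero]
        rfl
    · rfl
  have hrows : ∀ c : Fin n → ℤ, (∀ i, ∑ j, c j * A j i = 0) → c = 0 := by
    intro c hc
    refine hind c ?_
    simp only [hpA, Finset.mul_sum]
    rw [Finset.sum_comm]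
    refine Finset.sum_eq_zero fun i _ => ?_
    have h3 : ((∑ j, c j * A j i : ℤ) : ℂ) = 0 := by rw [hc i]; simp
    push_cast at h3
    have h4 : ∑ j, (c j : ℂ) * ((A j i : ℂ) * l i) = (∑ j, (c j : ℂ) * (A j i : ℂ)) * l i := by
      rw [Finset.sum_mul]
      exact Finset.sum_congr rfl fun j _ => by ring
    rw [h4, h3, zero_mul]
  obtain ⟨u₁, hu₁⟩ := right_inv A hrows fun j => y₀ (j, 0)
  obtain ⟨u₂, hu₂⟩ := right_inv A hrows fun j => y₀ (j, 1) - κ j
  have h1 := congrArg (MvPolynomial.aeval (fun x : ι × Fin 2 => (![u₁ x.1, u₂ x.1] : Fin 2 → ℂ) x.2)) hzero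
  rw [map_zero, hev] at h1
  rw [← h1]
  congr 1
  congr 1
  funext c
  rcases c with c | c
  · obtain ⟨j, c⟩ := c
    fin_cases c
    · show y₀ (j, 0) = MvPolynomial.aeval _ (S1 j)
      rw [hS1e]
      exact (hu₁ j).symm
    · show y₀ (j, 1) = MvPolynomial.aeval _ (S2 j)
      rw [hS2e]
      show _ = ∑ i, (A j i : ℂ) * u₂ i + _
      rw [hu₂ j]
      ring
  · rfl

end Pool.Agent.J6H76.EW
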